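import Pool.Agent.W798.SP.Stm
import Pool.Agent.W798.SP.Basic

set_option autoImplicit false

open Finset
open scoped Classical Pointwise

namespace Pool.Agent.W405.SP.TR

open Pool.Agent.W798.SP
open Pool.Agent.W904.AK

theorem tr : S_TR := by
  intro Ω _ A p l u n hA hB
  refine ⟨hB.law, fun i g => if i = 2 then -(g 2 - g 3) else g i.castSucc - g 3,
    fun i g => if (fib A (g i.castSucc)).card ≤ n then fib A (g i.castSucc) else ∅, ?_, ?_⟩
  · intro i g
    by_cases h : (fib A (g i.castSucc)).card ≤ n
    · simp only [h, if_true]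
    · simp only [h, if_false, Finset.card_empty, Nat.zero_le]
  · intro ω hω
    constructor
    · intro i
      have hmem := hB.mem ω hω i
      have hpos : 0 < u i ω := hA _ (Finset.mem_filter.1 hmem).1
      have hne := hB.ne ω hω i
      refine ⟨?_, hpos.ne', ?_⟩
      · by_cases hi : i = 2
        · subst hi
          simp only [if_true]
          refine neg_ne_zero.2 (sub_ne_zero.2 ?_)
          exact hne
        · simp only [hi, if_false]
          exact sub_ne_zero.2 hne
      · have hc := hB.card ω hω i
        change u i ω ∈ if (fib A (l i.castSucc ω)).card ≤ n then fib A (l i.castSucc ω) else ∅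
        rw [if_pos hc]
        exact hmem
    · have hrel := hB.rel ω hω
      rw [Fin.sum_univ_three]
      have h0 : (0 : Fin 3) ≠ 2 := by decide
      have h1 : (1 : Fin 3) ≠ 2 := by decide
      simp only [h0, h1, if_true, if_false]
      change (l 0 ω - l 3 ω) * u 0 ω + (l 1 ω - l 3 ω) * u 1 ω + -(l 2 ω - l 3 ω) * u 2 ω = 0
      rw [hrel]; ring

theorem hn (hGC : S_GC) : S_HN := by
  intro Ω Γ _ p Lam u n hT i
  obtain ⟨c, S, hS, hrel⟩ := hT.rel
  have h := hGC p Lam (u i) (fun _ => ()) (S i) (fun _ _ => {()}) 0 (n : ℝ) hT.law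
    (fun ω hω => ⟨((hrel ω hω).1 i).2.2, Finset.mem_singleton_self _⟩)
    (fun ω _ => by
      simp only [pow_zero, Finset.sum_const, nsmul_eq_mul, mul_one]
      exact_mod_cast hS i (Lam ω))
  simp only [Nat.cast_zero, zero_mul, zero_sub, neg_mul, one_mul, neg_neg] at h
  exact h

end Pool.Agent.W405.SP.TR
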